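import Pool.Agent.E8helper95.NP.Stm

/-!
# Project NP (helper95), task S_A
-/

set_option autoImplicit false

namespace Pool.Agent.E8helper98.NP

open Pool.Agent.E8helper95.NP

theorem rep_succ (p m : ℕ) : rep p (m + 1) = rep p m + (p : ℤ) ^ m := by
  unfold rep
  rw [Finset.sum_range_succ]

theorem rep_zero (p : ℕ) : rep p 0 = 0 := by
  unfold rep
  rw [Finset.sum_range_zero]

theorem rep_mul (p m : ℕ) : ((p : ℤ) - 1) * rep p m = (p : ℤ) ^ m - 1 := by
  induction m with
  | zero => rw [rep_zero]; ring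
  | succ n ih =>
    rw [rep_succ, mul_add, ih]
    ring

theorem rep_nonneg (p m : ℕ) : 0 ≤ rep p m := by
  unfold rep
  exact Finset.sum_nonneg fun i _ => by positivity

theorem rep_pos (p m : ℕ) : 1 ≤ rep p (m + 1) := by
  induction m with
  | zero => rw [rep_succ, rep_zero]; norm_num
  | succ n ih =>
    rw [rep_succ]
    have : (0 : ℤ) ≤ (p : ℤ) ^ (n + 1) := by positivity
    linarith

theorem rep_two (p m : ℕ) : (p : ℤ) + 1 ≤ rep p (m + 2) := by
  induction m with
  | zero => rw [rep_succ, rep_succ, rep_zero]; norm_num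
  | succ n ih =>
    rw [rep_succ]
    have : (0 : ℤ) ≤ (p : ℤ) ^ (n + 2) := by positivity
    linarith

/-- the facts used in case II -/
theorem facts {k p m a₁ b a : ℕ} (h : Sol k p m a₁ b a m) : ∃ H : ℤ, 1 ≤ H ∧
    (2 : ℤ) ^ (k + 1) = H + p + (p - 1) * 2 ^ a ∧
    rep p m * H = 1 + 2 ^ a + 2 ^ a₁ * (p : ℤ) ^ b ∧ Odd H ∧ (2 : ℤ) ^ (a + 1) ≤ H + p ∧
    (2 : ℤ) ^ a ∣ H + p := by
  obtain ⟨hp, hp3, hm, ha₁, ha₂, hb₁, hb₂, heq⟩ := h
  obtain ⟨n, rfl⟩ : ∃ n, m = n + 1 := ⟨m - 1, by omega⟩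
  have hpo : Odd p := hp.odd_of_ne_two (by omega)
  obtain ⟨q, hq⟩ := hpo
  have hS := rep_pos p n
  have hpm := rep_mul p (n + 1)
  set S := rep p (n + 1) with hSd
  set H : ℤ := (2 : ℤ) ^ (k + 1) - p - (p - 1) * 2 ^ a with hH
  have e1 : S * H = 1 + 2 ^ a + 2 ^ a₁ * (p : ℤ) ^ b := by
    have e2 : (p : ℤ) ^ (n + 1) = (p - 1) * S + 1 := by linarith
    rw [e2] at heq
    rw [hH]
    linarith
  have hpos : 0 < S * H := by
    rw [e1]
    positivity
  have hH1 : 1 ≤ H := by
    by_contra hc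
    push Not at hc
    have : S * H ≤ 0 := mul_nonpos_of_nonneg_of_nonpos (by linarith) (by omega)
    linarith
  obtain ⟨i, hi⟩ : ∃ i, k + 1 = a + (i + 1) := ⟨k - a, by omega⟩
  have e3 : (2 : ℤ) ^ a * (2 * (2 ^ i - q)) = H + p := by
    rw [hH, hi, hq]
    push_cast
    ring
  have e4 : (0 : ℤ) < 2 ^ a := by positivity
  refine ⟨H, hH1, by rw [hH]; ring, e1, ?_, ?_, ⟨_, e3.symm⟩⟩
  · rw [hH, hq]
    refine ⟨2 ^ k - q - q * 2 ^ a - 1, ?_⟩
    push_cast
    ring
  · have e5 : (0 : ℤ) < 2 ^ i - q := by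
      by_contra hc
      push Not at hc
      have : (2 : ℤ) ^ a * (2 * (2 ^ i - q)) ≤ 0 :=
        mul_nonpos_of_nonneg_of_nonpos e4.le (by linarith)
      rw [e3] at this
      have : (0 : ℤ) ≤ p := by positivity
      linarith
    rw [← e3, pow_succ]
    have e6 : (1 : ℤ) ≤ 2 ^ i - q := e5
    nlinarith

theorem t_A : S_A := by
  intro k p m a₁ b a h hb ha
  obtain ⟨H, h1, hM, hS, ⟨t, ht⟩, hA, hd⟩ := facts h
  obtain ⟨hp, hp3, hm, ha₁, ha₂, hb₁, hb₂, heq⟩ := h
  have hpo : Odd p := hp.odd_of_ne_two (by omega)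
  obtain ⟨q, hq⟩ := hpo
  obtain ⟨n, rfl⟩ : ∃ n, m = n + 2 := ⟨m - 2, by omega⟩
  obtain ⟨c, rfl⟩ : ∃ c, a = a₁ + (c + 1) := ⟨a - a₁ - 1, by omega⟩
  have hp3' : (3 : ℤ) ≤ p := by exact_mod_cast hp3
  have hx : (1 : ℤ) ≤ 2 ^ a₁ := one_le_pow₀ (by norm_num)
  set x : ℤ := (2 : ℤ) ^ a₁ with hxd
  set A : ℤ := (2 : ℤ) ^ (a₁ + (c + 1)) with hAd
  have hAx : 2 * x ≤ A := by
    rw [hAd, hxd, pow_add, pow_succ]
    have : (1 : ℤ) ≤ 2 ^ c := one_le_pow₀ (by norm_num)
    nlinarith
  rw [pow_succ, ← hAd] at hA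
  have hR := rep_pos p n
  have hSR : rep p (n + 2) = rep p (n + 1) + (p : ℤ) ^ (n + 1) := rep_succ p (n + 1)
  have hRm := rep_mul p (n + 1)
  rw [hSR] at hS
  set R := rep p (n + 1) with hRd
  set P : ℤ := (p : ℤ) ^ (n + 1) with hPd
  have hPp : (p : ℤ) ≤ P := by
    rw [hPd, pow_succ]
    have : (1 : ℤ) ≤ (p : ℤ) ^ n := one_le_pow₀ (by linarith)
    nlinarith
  have hbP : (p : ℤ) ^ b ≤ P := pow_le_pow_right₀ (by linarith) (by omega)
  have hb0 : (1 : ℤ) ≤ (p : ℤ) ^ b := one_le_pow₀ (by linarith)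
  -- `A < p`
  have hAp : A < p := by
    by_contra hc
    push Not at hc
    have k1 : A ≤ H := by linarith
    have k2 : (R + P) * A ≤ (R + P) * H := mul_le_mul_of_nonneg_left k1 (by linarith)
    have k3 : x * (p : ℤ) ^ b ≤ x * P := mul_le_mul_of_nonneg_left hbP (by linarith)
    have k4 : 2 * (x * P) ≤ A * P := by nlinarith
    have k5 : A ≤ R * A := by nlinarith
    have k6 : 3 * 3 ≤ A * P := mul_le_mul (by linarith) (by linarith) (by norm_num) (by linarith)
    nlinarith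
  rcases Nat.lt_or_ge b (n + 1) with hb' | hb'
  · -- `b ≤ m - 2`
    rcases Nat.eq_zero_or_pos n with hn | hn
    · subst hn
      have hb00 : b = 0 := by omega
      subst hb00
      have hR1 : R = 1 := by rw [hRd, rep_succ, rep_zero]; norm_num
      have hP1 : P = p := by rw [hPd]; ring
      rw [hR1, hP1, pow_zero, mul_one] at hS
      have hH1 : H = 1 := by
        by_contra hne
        have h2 : 2 ≤ H := by omega
        have : (1 + (p : ℤ)) * 2 ≤ (1 + p) * H := mul_le_mul_of_nonneg_left h2 (by linarith)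
        linarith
      rw [hH1] at hS hM hd hA
      have hp' : (p : ℤ) = A + x := by linarith
      -- `a₁ = 0`
      have ha0 : a₁ = 0 := by
        by_contra hne
        obtain ⟨e, he⟩ : ∃ e, a₁ = e + 1 := ⟨a₁ - 1, by omega⟩
        rw [hq, hAd, hxd, he] at hp'
        push_cast at hp'
        have e1 : (2 : ℤ) ^ (e + 1 + (c + 1)) = 2 * 2 ^ (e + (c + 1)) := by ring
        have e2 : (2 : ℤ) ^ (e + 1) = 2 * 2 ^ e := by ring
        rw [e1, e2] at hp'
        omega
      subst ha0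
      have hx1 : x = 1 := by rw [hxd, pow_zero]
      rw [hx1] at hp'
      rw [hp'] at hd
      have hd2 : A ∣ 2 := by
        have e1 : (1 : ℤ) + (A + 1) = A + 2 := by ring
        rw [e1] at hd
        exact (Int.dvd_add_right (dvd_refl A)).1 hd
      have hA2 : A ≤ 2 := Int.le_of_dvd (by norm_num) hd2
      have hA3 : A = 2 := by linarith
      have hp3'' : p = 3 := by
        have : (p : ℤ) = 3 := by linarith
        exact_mod_cast this
      refine ⟨?_, hp3'', rfl⟩
      rw [hp3'', hA3] at hM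
      have h8 : (2 : ℤ) ^ (k + 1) = 2 ^ 3 := by
        rw [hM]
        norm_num
      have h9 : (2 : ℕ) ^ (k + 1) = 2 ^ 3 := by exact_mod_cast h8
      have := Nat.pow_right_injective (le_refl 2) h9
      omega
    · exfalso
      obtain ⟨l, rfl⟩ : ∃ l, n = l + 1 := ⟨n - 1, by omega⟩
      have hR2 : (p : ℤ) + 1 ≤ R := rep_two p l
      have hbP2 : (p : ℤ) ^ b * p ≤ P := by
        rw [← pow_succ, hPd]
        exact pow_le_pow_right₀ (by linarith) (by omega)
      have k1 : (R + P) * 1 ≤ (R + P) * H := mul_le_mul_of_nonneg_left h1 (by linarith)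
      have k2 : x * (p : ℤ) ^ b ≤ (p : ℤ) ^ b * p := by
        rw [mul_comm]
        exact mul_le_mul_of_nonneg_left (by linarith) (by linarith)
      linarith
  · -- `b = m - 1`
    exfalso
    have hb1 : b = n + 1 := by omega
    subst hb1
    rw [← hPd] at hS
    have e1 : P * (x - H) = H * R - A - 1 := by linarith
    rcases lt_trichotomy H x with hlt | heq' | hgt
    · have k1 : P * 1 ≤ P * (x - H) := mul_le_mul_of_nonneg_left (by linarith) (by linarith)
      have k2 : ((p : ℤ) - 1) * R < H * R := by linarith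
      have k3 : (p : ℤ) - 1 < H := lt_of_mul_lt_mul_right k2 (by linarith)
      linarith
    · -- `H = x`, odd
      have hx1 : a₁ = 0 := by
        by_contra hne
        obtain ⟨e, he⟩ : ∃ e, a₁ = e + 1 := ⟨a₁ - 1, by omega⟩
        rw [heq', hxd, he] at ht
        have e2 : (2 : ℤ) ^ (e + 1) = 2 * 2 ^ e := by ring
        rw [e2] at ht
        omega
      have hx2 : x = 1 := by rw [hxd, hx1, pow_zero]
      have hR1 : R = A + 1 := by
        rw [heq', hx2] at e1
        linarith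
      rcases Nat.eq_zero_or_pos n with hn | hn
      · subst hn
        have hR2 : R = 1 := by rw [hRd, rep_succ, rep_zero]; norm_num
        linarith
      · obtain ⟨l, rfl⟩ : ∃ l, n = l + 1 := ⟨n - 1, by omega⟩
        have hR2 : (p : ℤ) + 1 ≤ R := rep_two p l
        linarith
    · have k1 : P * 1 ≤ P * (H - x) := mul_le_mul_of_nonneg_left (by linarith) (by linarith)
      have k2 : 1 * 1 ≤ H * R := mul_le_mul h1 hR (by norm_num) (by linarith)
      linarith

end Pool.Agent.E8helper98.NP
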